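import Pool.Agent.W780.BB.Stm
import Pool.Agent.TH103.BL.Defs

set_option autoImplicit false

/-!
Invariant functions of polygonal billiards are determined by their means over the sides:
statements of the parts.
-/

namespace Pool.Agent.N440.LB

open Complex Set MeasureTheory Filter Topology Pool.Agent.W780.PG Pool.Agent.W780.BB
  Pool.Agent.TH103.BL

open scoped Real ComplexConjugate

/-- the offset of the line with direction angle `θ` through `z` -/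
noncomputable def off (θ : ℝ) (z : ℂ) : ℝ := (conj (dir θ) * z).im

/-- the point with parameter `t` of side `i` -/
noncomputable def pt {n : ℕ} (p : Fin (n + 3) → ℂ) (i : Fin (n + 3)) (t : ℝ) : ℂ :=
  p i + t • (p (i + 1) - p i)

/-- `F θ u` is the value of `f` on the chord with direction angle `θ` and offset `u` -/
structure Chord {n : ℕ} (p : Fin (n + 3) → ℂ) (f : ℂ × ℝ → ℝ) (C : ℝ) (F : ℝ → ℝ → ℝ) : Prop where
  meas : Measurable (Function.uncurry F)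
  bdd : ∀ θ u, |F θ u| ≤ C
  per : ∀ θ u, F (θ + 2 * π) u = F θ u
  val : ∀ θ, ∀ z ∈ reg p, f (z, θ) = F θ (off θ z)
  refl : ∀ i, ∀ t ∈ Ioo (0 : ℝ) 1, ∀ θ, Real.sin (θ - tau p i) ≠ 0 →
    F (2 * tau p i - θ) (off (2 * tau p i - θ) (pt p i t)) = F θ (off θ (pt p i t))

/-- the primitive of the chord function -/
noncomputable def G (F : ℝ → ℝ → ℝ) (z : ℂ) (θ : ℝ) : ℝ := ∫ u in (0 : ℝ)..off θ z, F θ u

/-- `∫ sin (k (θ - θ')) G F z θ dθ` -/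
noncomputable def Ak (F : ℝ → ℝ → ℝ) (k : ℕ) (z : ℂ) (θ' : ℝ) : ℝ :=
  ∫ θ in (0 : ℝ)..(2 * π), Real.sin (k * (θ - θ')) * G F z θ

/-- the derivative of `Ak` in the direction `θ'` -/
noncomputable def Dk (F : ℝ → ℝ → ℝ) (k : ℕ) (z : ℂ) (θ' : ℝ) : ℝ :=
  ∫ θ in (0 : ℝ)..(2 * π), Real.sin (k * (θ - θ')) * F θ (off θ z) * Real.sin (θ' - θ)

/-- the mean of the chord function over side `i` -/
noncomputable def Mn {n : ℕ} (p : Fin (n + 3) → ℂ) (F : ℝ → ℝ → ℝ) (i : Fin (n + 3)) (θ : ℝ) : ℝ :=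
  ∫ t in (0 : ℝ)..1, F θ (off θ (pt p i t))

/-- CH: the chord function of an invariant function -/
def S_CH : Prop := S_Basic → S_Hull → ∀ (n : ℕ) (p : Fin (n + 3) → ℂ), IsConvexPolygon p →
  ∀ f : ℂ × ℝ → ℝ, Measurable f → (∃ C : ℝ, ∀ x, |f x| ≤ C) → IsInvariantFun p f →
  ∃ (C : ℝ) (F : ℝ → ℝ → ℝ), Chord p f C F

/-- the parameter at which the line of side `i` has offset `u` -/
noncomputable def par {n : ℕ} (p : Fin (n + 3) → ℂ) (θ : ℝ) (i : Fin (n + 3)) (u : ℝ) : ℝ :=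
  (u - off θ (p i)) / (off θ (p (i + 1)) - off θ (p i))

/-- DA: the slices of a convex polygon: the slice with offset `u` is an open interval, its right
end is on the only side `i` which crosses the offset `u` upwards, its left end on the only side `j`
which crosses it downwards; or the slice is empty and no side crosses -/
def S_DA : Prop := S_Basic → ∀ (n : ℕ) (p : Fin (n + 3) → ℂ), IsConvexPolygon p →
  ∀ θ u : ℝ, (∀ k, off θ (p k) ≠ u) →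
  ({s : ℝ | ((s : ℂ) + u * I) * dir θ ∈ reg p} = ∅ ∧
    ∀ l, (off θ (p l) < u ∧ off θ (p (l + 1)) < u) ∨ (u < off θ (p l) ∧ u < off θ (p (l + 1)))) ∨
  ∃ (i j : Fin (n + 3)) (α β : ℝ), i ≠ j ∧ off θ (p i) < u ∧ u < off θ (p (i + 1)) ∧
    off θ (p (j + 1)) < u ∧ u < off θ (p j) ∧
    (∀ l, l ≠ i → l ≠ j →
      (off θ (p l) < u ∧ off θ (p (l + 1)) < u) ∨ (u < off θ (p l) ∧ u < off θ (p (l + 1)))) ∧
    α < β ∧ {s : ℝ | ((s : ℂ) + u * I) * dir θ ∈ reg p} = Ioo α β ∧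
    ((α : ℂ) + u * I) * dir θ = pt p j (par p θ j u) ∧
    ((β : ℂ) + u * I) * dir θ = pt p i (par p θ i u)

/-- DB: the divergence theorem in a convex polygon in one direction (uses DA) -/
def S_DIV : Prop := ∀ (n : ℕ) (p : Fin (n + 3) → ℂ), IsConvexPolygon p →
  ∀ (θ : ℝ) (H h : ℂ → ℝ), Measurable H → Measurable h →
  (∀ R : ℝ, ∃ C : ℝ, ∀ z : ℂ, ‖z‖ ≤ R → |H z| ≤ C ∧ |h z| ≤ C) →
  (∀ (z : ℂ) (s : ℝ), H (z + s • dir θ) - H z = ∫ r in (0 : ℝ)..s, h (z + r • dir θ)) →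
  ∫ z in reg p, h z =
    ∑ i, off θ (p (i + 1) - p i) * ∫ t in (0 : ℝ)..1, H (pt p i t)

def S_DB : Prop := S_Basic → S_DA → S_DIV

/-- GF: the primitive -/
def S_GF : Prop := ∀ (F : ℝ → ℝ → ℝ) (C : ℝ), Measurable (Function.uncurry F) →
  (∀ θ u, |F θ u| ≤ C) →
  Measurable (fun x : ℂ × ℝ => G F x.1 x.2) ∧ (∀ z θ, |G F z θ| ≤ C * ‖z‖) ∧
  (∀ (θ : ℝ) (z w : ℂ), G F w θ - G F z θ =
    (∫ r in (0 : ℝ)..1, F θ (off θ (z + r • (w - z)))) * off θ (w - z)) ∧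
  (∀ (θ θ' s : ℝ) (z : ℂ), G F (z + s • dir θ') θ - G F z θ =
    (∫ r in (0 : ℝ)..s, F θ (off θ (z + r • dir θ'))) * Real.sin (θ' - θ))

/-- SY: integrals of functions symmetric under the reflection `θ ↦ 2 τ - θ` -/
def S_SY : Prop := ∀ (a : ℝ → ℝ) (C τ : ℝ) (k : ℕ), Measurable a → (∀ θ, |a θ| ≤ C) →
  (∀ θ, a (θ + 2 * π) = a θ) → (∀ᵐ θ : ℝ, a (2 * τ - θ) = a θ) →
  (∫ θ in (0 : ℝ)..(2 * π), Real.cos (k * (θ - τ)) * (Real.sin (τ - θ) * a θ)) = 0 ∧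
  ∀ Ψ : ℂ, (∫ θ in (0 : ℝ)..(2 * π),
      Real.sin (τ - θ) * (a θ * (exp (-((k * θ : ℝ) : ℂ) * I) * Ψ).im)) =
    (∫ θ in (0 : ℝ)..(2 * π), Real.sin (θ - τ) * (Real.sin (k * (θ - τ)) * a θ)) *
      (exp (-((k * τ : ℝ) : ℂ) * I) * Ψ).re

/-- I1: the divergence theorem for `F · Ak` (uses DIV, GF) -/
def S_I1 : Prop := S_DIV → S_GF → ∀ (n : ℕ) (p : Fin (n + 3) → ℂ), IsConvexPolygon p →
  ∀ (F : ℝ → ℝ → ℝ) (C : ℝ), Measurable (Function.uncurry F) → (∀ θ u, |F θ u| ≤ C) →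
  ∀ (k : ℕ) (θ' : ℝ), ∫ z in reg p, F θ' (off θ' z) * Dk F k z θ' =
    ∑ i, off θ' (p (i + 1) - p i) *
      ∫ t in (0 : ℝ)..1, F θ' (off θ' (pt p i t)) * Ak F k (pt p i t) θ'

/-- I2: the contribution of a side with mean zero vanishes (uses GF, SY) -/
def S_I2 : Prop := S_GF → S_SY → ∀ (n : ℕ) (p : Fin (n + 3) → ℂ) (i : Fin (n + 3)),
  p i ≠ p (i + 1) → ∀ (F : ℝ → ℝ → ℝ) (C : ℝ), Measurable (Function.uncurry F) →
  (∀ θ u, |F θ u| ≤ C) → (∀ θ u, F (θ + 2 * π) u = F θ u) →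
  (∀ t ∈ Ioo (0 : ℝ) 1, ∀ θ, Real.sin (θ - tau p i) ≠ 0 →
    F (2 * tau p i - θ) (off (2 * tau p i - θ) (pt p i t)) = F θ (off θ (pt p i t))) →
  (∀ᵐ θ : ℝ, Mn p F i θ = 0) → ∀ k : ℕ,
  ∫ θ' in (0 : ℝ)..(2 * π), off θ' (p (i + 1) - p i) *
      ∫ t in (0 : ℝ)..1, F θ' (off θ' (pt p i t)) * Ak F k (pt p i t) θ' = 0

/-- FA: the double integral as a difference of squares of Fourier coefficients -/
def S_FA : Prop := ∀ (a : ℝ → ℝ) (C : ℝ) (k : ℕ), Measurable a → (∀ θ, |a θ| ≤ C) → 1 ≤ k →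
  ∫ θ' in (0 : ℝ)..(2 * π), a θ' *
      ∫ θ in (0 : ℝ)..(2 * π), Real.sin (k * (θ - θ')) * a θ * Real.sin (θ' - θ) =
    (‖∫ θ in (0 : ℝ)..(2 * π), (a θ : ℂ) * exp (((k + 1 : ℕ) * θ : ℝ) * I)‖ ^ 2 -
     ‖∫ θ in (0 : ℝ)..(2 * π), (a θ : ℂ) * exp (((k - 1 : ℕ) * θ : ℝ) * I)‖ ^ 2) / 2

/-- FB: equality of the norms of the Fourier coefficients `k - 1` and `k + 1` implies vanishing -/
def S_FB : Prop := ∀ (S : Set ℂ), MeasurableSet S → volume S < ⊤ →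
  ∀ (f : ℂ → ℝ → ℝ) (C : ℝ), Measurable (Function.uncurry f) → (∀ z θ, |f z θ| ≤ C) →
  (∀ z θ, f z (θ + 2 * π) = f z θ) →
  (∀ k : ℕ, 1 ≤ k →
    ∫ z in S, ‖∫ θ in (0 : ℝ)..(2 * π), (f z θ : ℂ) * exp (((k + 1 : ℕ) * θ : ℝ) * I)‖ ^ 2 =
    ∫ z in S, ‖∫ θ in (0 : ℝ)..(2 * π), (f z θ : ℂ) * exp (((k - 1 : ℕ) * θ : ℝ) * I)‖ ^ 2) →
  ∀ᵐ z ∂(volume.restrict S), ∀ᵐ θ : ℝ, f z θ = 0

/-- RO: a function which is odd under two reflections whose axes form an irrational angle -/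
def S_RO : Prop := ∀ (a b : ℝ), Irrational ((a - b) / π) → ∀ (m : ℝ → ℝ) (C : ℝ), Measurable m →
  (∀ θ, |m θ| ≤ C) → (∀ θ, m (θ + 2 * π) = m θ) → (∀ᵐ θ : ℝ, m (2 * a - θ) = - m θ) →
  (∀ᵐ θ : ℝ, m (2 * b - θ) = - m θ) → ∀ᵐ θ : ℝ, m θ = 0

end Pool.Agent.N440.LB
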