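import Pool.Agent.N440.LB.Fin
import Pool.Agent.N186.LB.DA
import Pool.Agent.N645.LB.DB
import Pool.Agent.N327.LB.GF
import Pool.Agent.N723.LB.SY
import Pool.Agent.N542.LB.I1
import Pool.Agent.N370.LB.I2
import Pool.Agent.N887.LB.FA
import Pool.Agent.N398.LB.FB
import Pool.Agent.N263.LB.RO
import Pool.Agent.W174.PG.Basic
import Pool.Agent.W975.PG.Hull

set_option autoImplicit false

/-!
All parts together.
-/

namespace Pool.Agent.N440.LB

theorem parts : Parts where
  basic := Pool.Agent.W174.PG.basic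
  hull := Pool.Agent.W975.PG.hull Pool.Agent.W174.PG.basic
  ch := Pool.Agent.N664.LB.CH.t_CH
  div := Pool.Agent.N645.LB.t_DB Pool.Agent.W174.PG.basic Pool.Agent.N186.LB.DA.t_DA
  gf := Pool.Agent.N327.LB.t_GF
  sy := Pool.Agent.N723.LB.SY.t_SY
  i1 := Pool.Agent.N542.LB.t_I1
  i2 := Pool.Agent.N370.LB.t_I2
  fa := Pool.Agent.N887.LB.FA.t_FA
  fb := Pool.Agent.N398.LB.FB.t_FB
  ro := Pool.Agent.N263.LB.t_RO

end Pool.Agent.N440.LB
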