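import Pool.Agent.N440.LB.Stm

set_option autoImplicit false

/-!
Second part: convex polygons with at most two angles which are not right (right triangles, right
trapezoids, ...): invariant functions are even in the velocity. Statements of the parts.
-/

namespace Pool.Agent.N440.LB

open Complex Set MeasureTheory Filter Topology Pool.Agent.W780.PG Pool.Agent.W780.BB
  Pool.Agent.TH103.BL

open scoped Real ComplexConjugate

/-- `∫ exp (i k θ) G F z θ dθ` -/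
noncomputable def Psi (F : ℝ → ℝ → ℝ) (k : ℕ) (z : ℂ) : ℂ :=
  ∫ θ in (0 : ℝ)..(2 * π), exp (((k * θ : ℝ) : ℂ) * I) * (G F z θ : ℂ)

/-- the moment of side `i` -/
noncomputable def Jn {n : ℕ} (p : Fin (n + 3) → ℂ) (F : ℝ → ℝ → ℝ) (k : ℕ) (i : Fin (n + 3)) : ℝ :=
  ‖p (i + 1) - p i‖ * ∫ θ in (0 : ℝ)..(2 * π),
    Real.sin (θ - tau p i) * (Real.sin (k * (θ - tau p i)) * Mn p F i θ)

/-- J2: the contribution of a side (general form of I2; uses GF, SY) -/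
def S_J2 : Prop := S_GF → S_SY → ∀ (n : ℕ) (p : Fin (n + 3) → ℂ) (i : Fin (n + 3)),
  p i ≠ p (i + 1) → ∀ (F : ℝ → ℝ → ℝ) (C : ℝ), Measurable (Function.uncurry F) →
  (∀ θ u, |F θ u| ≤ C) → (∀ θ u, F (θ + 2 * π) u = F θ u) →
  (∀ t ∈ Ioo (0 : ℝ) 1, ∀ θ, Real.sin (θ - tau p i) ≠ 0 →
    F (2 * tau p i - θ) (off (2 * tau p i - θ) (pt p i t)) = F θ (off θ (pt p i t))) →
  ∀ k : ℕ,
  (∫ θ' in (0 : ℝ)..(2 * π), off θ' (p (i + 1) - p i) *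
      ∫ t in (0 : ℝ)..1, F θ' (off θ' (pt p i t)) * Ak F k (pt p i t) θ') =
    Jn p F k i * (exp (-((k * tau p i : ℝ) : ℂ) * I) * Psi F k (p i)).re ∧
  (exp (-((k * tau p i : ℝ) : ℂ) * I) * Psi F k (p (i + 1))).re =
    (exp (-((k * tau p i : ℝ) : ℂ) * I) * Psi F k (p i)).re

/-- FO: equality of the norms of the Fourier coefficients `k - 1` and `k + 1` for even `k`
implies `f z (θ + π) = f z θ` -/
def S_FO : Prop := ∀ (S : Set ℂ), MeasurableSet S → volume S < ⊤ →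
  ∀ (f : ℂ → ℝ → ℝ) (C : ℝ), Measurable (Function.uncurry f) → (∀ z θ, |f z θ| ≤ C) →
  (∀ z θ, f z (θ + 2 * π) = f z θ) →
  (∀ k : ℕ, 1 ≤ k → Even k →
    ∫ z in S, ‖∫ θ in (0 : ℝ)..(2 * π), (f z θ : ℂ) * exp (((k + 1 : ℕ) * θ : ℝ) * I)‖ ^ 2 =
    ∫ z in S, ‖∫ θ in (0 : ℝ)..(2 * π), (f z θ : ℂ) * exp (((k - 1 : ℕ) * θ : ℝ) * I)‖ ^ 2) →
  ∀ᵐ z ∂(volume.restrict S), ∀ᵐ θ : ℝ, f z (θ + π) = f z θ

/-- CY: cyclic sums with at most two exceptional vertices `a`, `b` -/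
def S_CY : Prop := ∀ (n : ℕ) (w : Fin (n + 3) → ℂ) (r J : Fin (n + 3) → ℝ) (a b : Fin (n + 3)),
  (∀ i, ‖w i‖ = 1) → (∀ i, ∀ ε : ℝ, ε = 1 ∨ ε = -1 → w (i + 1) = ε * w i → r (i + 1) = ε * r i) →
  (∀ i, i + 1 ≠ a → i + 1 ≠ b → ∃ ε : ℝ, (ε = 1 ∨ ε = -1) ∧ w (i + 1) = ε * w i) →
  ∑ i, (J i : ℂ) * w i = 0 → ∑ i, J i * r i = 0

end Pool.Agent.N440.LB
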