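import Pool.Agent.N440.LB.Fin
import Pool.Agent.N440.LB.Stm2

set_option autoImplicit false

/-!
Second part: convex polygons with at most two angles which are not right.
-/

namespace Pool.Agent.N440.LB

open Complex Set MeasureTheory Filter Topology Pool.Agent.W780.PG Pool.Agent.W780.BB
  Pool.Agent.TH103.BL

open scoped Real ComplexConjugate

variable {n : ℕ}

/-- the identity for the Fourier coefficients, general form -/
theorem identGen (hI1 : S_I1) (hDIV : S_DIV) (hGF : S_GF)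
    {p : Fin (n + 3) → ℂ} (hp : IsConvexPolygon p) (hfin : volume (reg p) < ⊤)
    {f : ℂ × ℝ → ℝ} {C : ℝ} {F : ℝ → ℝ → ℝ} (hF : Chord p f C F) (k : ℕ) :
    ∫ z in reg p, ∫ θ' in (0 : ℝ)..(2 * π), F θ' (off θ' z) * Dk F k z θ' =
      ∑ i, ∫ θ' in (0 : ℝ)..(2 * π), off θ' (p (i + 1) - p i) *
        ∫ t in (0 : ℝ)..1, F θ' (off θ' (pt p i t)) * Ak F k (pt p i t) θ' := by
  have hC : 0 ≤ C := (abs_nonneg _).trans (hF.bdd 0 0)
  have h1 : ∀ θ', ∫ z in reg p, F θ' (off θ' z) * Dk F k z θ' =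
    ∑ i, off θ' (p (i + 1) - p i) *
      ∫ t in (0 : ℝ)..1, F θ' (off θ' (pt p i t)) * Ak F k (pt p i t) θ' :=
    fun θ' => hI1 hDIV hGF n p hp F C hF.meas hF.bdd k θ'
  have hGm := (hGF F C hF.meas hF.bdd).1
  have hGb := (hGF F C hF.meas hF.bdd).2.1
  have hpt : ∀ i, Continuous (pt p i) := by
    intro i; unfold pt; fun_prop
  -- measurability of the sides
  have hAm : ∀ i, Measurable (fun x : ℝ × ℝ => F x.1 (off x.1 (pt p i x.2)) * Ak F k (pt p i x.2) x.1) := by
    intro i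
    have e1 : Measurable (fun x : ℝ × ℝ => F x.1 (off x.1 (pt p i x.2))) :=
      chord_meas' hF.meas ((hpt i).measurable.comp measurable_snd) measurable_fst
    refine e1.mul ?_
    unfold Ak
    simp only [intervalIntegral.integral_of_le (by positivity : (0:ℝ) ≤ 2 * π)]
    have : Measurable (fun y : (ℝ × ℝ) × ℝ => Real.sin (k * (y.2 - y.1.1)) * G F (pt p i y.1.2) y.2) := by
      have e2 : Measurable (fun y : (ℝ × ℝ) × ℝ => Real.sin (k * (y.2 - y.1.1))) := by
        have : Continuous (fun y : (ℝ × ℝ) × ℝ => Real.sin (k * (y.2 - y.1.1))) := by fun_prop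
        exact this.measurable
      have e3 : Measurable (fun y : (ℝ × ℝ) × ℝ => (pt p i y.1.2, y.2)) :=
        ((hpt i).comp (continuous_snd.comp continuous_fst)).measurable.prodMk measurable_snd
      have e4 : Measurable (fun y : (ℝ × ℝ) × ℝ => G F (pt p i y.1.2) y.2) :=
        Measurable.comp (g := fun x : ℂ × ℝ => G F x.1 x.2)
          (f := fun y : (ℝ × ℝ) × ℝ => (pt p i y.1.2, y.2)) hGm e3
      exact e2.mul e4
    exact (this.stronglyMeasurable.integral_prod_right (ν := volume.restrict (Ioc 0 (2 * π)))).measurable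
  have hAb : ∀ i, ∃ B : ℝ, 0 ≤ B ∧ ∀ t ∈ Icc (0:ℝ) 1, ∀ θ', |F θ' (off θ' (pt p i t)) * Ak F k (pt p i t) θ'| ≤ B := by
    intro i
    obtain ⟨R, hR⟩ := isCompact_Icc.exists_bound_of_continuousOn (s := Icc (0:ℝ) 1) (f := pt p i)
      (hpt i).continuousOn
    have hR0 : 0 ≤ R := (norm_nonneg _).trans (hR 0 (by simp))
    refine ⟨C * (C * R * (2 * π)), by positivity, fun t ht θ' => ?_⟩
    rw [abs_mul]
    refine mul_le_mul (hF.bdd _ _) ?_ (abs_nonneg _) hC
    unfold Ak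
    have := intervalIntegral.norm_integral_le_of_norm_le_const (a := 0) (b := 2 * π) (C := C * R)
      (f := fun θ => Real.sin (k * (θ - θ')) * G F (pt p i t) θ) ?_
    · rw [Real.norm_eq_abs] at this
      refine this.trans ?_
      rw [sub_zero, abs_of_nonneg (by positivity)]
    · intro θ _
      rw [Real.norm_eq_abs, abs_mul]
      have h1 := Real.abs_sin_le_one (k * (θ - θ'))
      have h3 := hGb (pt p i t) θ
      have h4 := hR t ht
      have h5 := abs_nonneg (Real.sin (k * (θ - θ')))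
      calc _ ≤ 1 * (C * ‖pt p i t‖) := by gcongr
        _ ≤ 1 * (C * R) := by gcongr
        _ = _ := by ring
  have h3 : ∫ θ' in (0 : ℝ)..(2 * π), ∫ z in reg p, F θ' (off θ' z) * Dk F k z θ' =
      ∑ i, ∫ θ' in (0 : ℝ)..(2 * π), off θ' (p (i + 1) - p i) *
        ∫ t in (0 : ℝ)..1, F θ' (off θ' (pt p i t)) * Ak F k (pt p i t) θ' := by
    simp only [h1]
    rw [intervalIntegral.integral_finsetSum]
    · intro i _
      obtain ⟨B, hB0, hB⟩ := hAb i
      have hoffc : Continuous (fun θ' : ℝ => off θ' (p (i + 1) - p i)) :=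
        off_cont.comp (continuous_id.prodMk continuous_const)
      refine IntervalIntegrable.continuousOn_mul (g := fun θ' : ℝ => off θ' (p (i + 1) - p i)) ?_ hoffc.continuousOn
      rw [intervalIntegrable_iff]
      have hm : Measurable (fun θ' : ℝ => ∫ t in (0 : ℝ)..1, F θ' (off θ' (pt p i t)) * Ak F k (pt p i t) θ') := by
        simp only [intervalIntegral.integral_of_le (zero_le_one : (0:ℝ) ≤ 1)]
        exact ((hAm i).stronglyMeasurable.integral_prod_right (ν := volume.restrict (Ioc 0 1))).measurable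
      refine Measure.integrableOn_of_bounded (M := B)
        (by rw [uIoc_of_le (by positivity)]; exact measure_Ioc_lt_top.ne) hm.aestronglyMeasurable ?_
      refine ae_of_all _ fun θ' => ?_
      have := intervalIntegral.norm_integral_le_of_norm_le_const (a := 0) (b := 1) (C := B)
        (f := fun t => F θ' (off θ' (pt p i t)) * Ak F k (pt p i t) θ') ?_
      · simpa using this
      · intro t ht
        rw [uIoc_of_le zero_le_one] at ht
        exact hB t ⟨ht.1.le, ht.2⟩ θ'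
  refine Eq.trans ?_ h3
  simp only [intervalIntegral.integral_of_le (by positivity : (0:ℝ) ≤ 2 * π)]
  have : IsFiniteMeasure (volume.restrict (reg p)) := ⟨by simpa using hfin⟩
  refine integral_integral_swap ?_
  have hm : Measurable (Function.uncurry fun (z : ℂ) (θ' : ℝ) => F θ' (off θ' z) * Dk F k z θ') :=
    (chord_meas hF.meas).mul (Dk_meas hF.meas k)
  refine Integrable.of_bound (C := C * (C * (2 * π))) hm.aestronglyMeasurable (ae_of_all _ fun x => ?_)
  rw [Real.norm_eq_abs]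
  simp only [Function.uncurry]
  rw [abs_mul]
  exact mul_le_mul (hF.bdd _ _) (Dk_bdd hF.bdd k _ _) (abs_nonneg _) hC



/-- the closing relation for the moments -/
theorem closingJ (hDIV : S_DIV) (hSY : S_SY) {p : Fin (n + 3) → ℂ} (hp : IsConvexPolygon p)
    {f : ℂ × ℝ → ℝ} {C : ℝ} {F : ℝ → ℝ → ℝ} (hF : Chord p f C F) (k : ℕ) :
    ∑ i, (Jn p F k i : ℂ) * exp (((k * tau p i : ℝ) : ℂ) * I) = 0 := by
  have hC : 0 ≤ C := (abs_nonneg _).trans (hF.bdd 0 0)
  have h1 : ∀ Ψ : ℂ, ∑ i, Jn p F k i * (exp (-((k * tau p i : ℝ) : ℂ) * I) * Ψ).re = 0 := by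
    intro Ψ
    have e1 : ∀ i, Jn p F k i * (exp (-((k * tau p i : ℝ) : ℂ) * I) * Ψ).re =
        ∫ θ in (0 : ℝ)..(2 * π), off θ (p (i + 1) - p i) * Mn p F i θ *
          (exp (-((k * θ : ℝ) : ℂ) * I) * Ψ).im := by
      intro i
      have h := (hSY (Mn p F i) C (tau p i) k (mn_meas hF.meas p i) (mn_bdd hF.bdd p i)
        (mn_per hF.per p i) (by
          filter_upwards [ae_sin_ne (tau p i)] with θ hθ
          exact mn_refl (hF.refl i) hθ)).2 Ψ
      unfold Jn
      rw [mul_assoc, ← h, ← intervalIntegral.integral_const_mul]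
      refine intervalIntegral.integral_congr fun θ _ => ?_
      simp only [off_side]
      ring
    simp only [e1]
    rw [← intervalIntegral.integral_finsetSum]
    · have : ∀ θ, ∑ i, off θ (p (i + 1) - p i) * Mn p F i θ *
          (exp (-((k * θ : ℝ) : ℂ) * I) * Ψ).im = 0 := by
        intro θ
        rw [← Finset.sum_mul, closing hDIV hp hF.meas hF.bdd θ, zero_mul]
      simp only [this, intervalIntegral.integral_zero]
    · intro i _
      rw [intervalIntegrable_iff]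
      have hm : Measurable (fun θ : ℝ => off θ (p (i + 1) - p i) * Mn p F i θ *
          (exp (-((k * θ : ℝ) : ℂ) * I) * Ψ).im) := by
        have h0 : Continuous (fun θ : ℝ => off θ (p (i + 1) - p i)) :=
          off_cont.comp (continuous_id.prodMk continuous_const)
        have h2 : Continuous (fun θ : ℝ => (exp (-((k * θ : ℝ) : ℂ) * I) * Ψ).im) := by fun_prop
        exact (h0.measurable.mul (mn_meas hF.meas p i)).mul h2.measurable
      refine Measure.integrableOn_of_bounded (M := ‖p (i + 1) - p i‖ * C * ‖Ψ‖)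
        (by rw [uIoc_of_le (by positivity)]; exact measure_Ioc_lt_top.ne)
        hm.aestronglyMeasurable (ae_of_all _ fun θ => ?_)
      rw [Real.norm_eq_abs, abs_mul, abs_mul]
      refine mul_le_mul (mul_le_mul ?_ (mn_bdd hF.bdd p i θ) (abs_nonneg _) (norm_nonneg _)) ?_
        (abs_nonneg _) (by positivity)
      · rw [off_side, abs_mul, abs_of_nonneg (norm_nonneg _)]
        exact mul_le_of_le_one_right (norm_nonneg _) (Real.abs_sin_le_one _)
      · refine (abs_im_le_norm _).trans ?_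
        rw [norm_mul]
        have : ‖exp (-((k * θ : ℝ) : ℂ) * I)‖ = 1 := by
          rw [← ofReal_neg]; exact norm_exp_ofReal_mul_I _
        rw [this, one_mul]
  have hconj : ∀ i, exp (-((k * tau p i : ℝ) : ℂ) * I) = conj (exp (((k * tau p i : ℝ) : ℂ) * I)) := by
    intro i
    rw [← exp_conj, map_mul, conj_ofReal, conj_I]; congr 1; ring
  have hre := h1 1
  have him := h1 I
  simp only [hconj, mul_one] at hre
  simp only [hconj] at him
  apply Complex.ext
  · rw [re_sum, zero_re, ← hre]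
    refine Finset.sum_congr rfl fun i _ => ?_
    rw [re_ofReal_mul, conj_re]
  · rw [im_sum, zero_im, ← him]
    refine Finset.sum_congr rfl fun i _ => ?_
    rw [im_ofReal_mul]
    congr 1
    simp

theorem exp_tau (p : Fin (n + 3) → ℂ) (i : Fin (n + 3)) (h : p (i + 1) - p i ≠ 0) :
    exp ((tau p i : ℂ) * I) = (p (i + 1) - p i) / ‖p (i + 1) - p i‖ := by
  have hn : (‖p (i + 1) - p i‖ : ℂ) ≠ 0 := ofReal_ne_zero.2 (norm_ne_zero_iff.2 h)
  rw [eq_div_iff hn]
  unfold tau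
  rw [mul_comm]
  exact norm_mul_exp_arg_mul_I _

/-- at a right angle the `k`-th powers of the directions agree up to a sign, `k` even -/
theorem right_angle {p : Fin (n + 3) → ℂ} (hB : S_Basic) (hp : IsConvexPolygon p)
    (i : Fin (n + 3)) (h : ang p (i + 1) = π / 2) {k : ℕ} (hk : Even k) :
    ∃ ε : ℝ, (ε = 1 ∨ ε = -1) ∧ exp (((k * tau p (i + 1) : ℝ) : ℂ) * I) =
      ε * exp (((k * tau p i : ℝ) : ℂ) * I) := by
  obtain ⟨m, rfl⟩ := hk
  have hd : p (i + 1) - p i ≠ 0 := sub_ne_zero.2 (vert_ne hB hp i).symm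
  have hd' : p (i + 1 + 1) - p (i + 1) ≠ 0 := sub_ne_zero.2 (vert_ne hB hp (i + 1)).symm
  have hsq : exp ((tau p (i + 1) : ℂ) * I) ^ 2 = - exp ((tau p i : ℂ) * I) ^ 2 := by
    have hinner : inner ℝ (p i - p (i + 1)) (p (i + 1 + 1) - p (i + 1)) = 0 := by
      unfold ang EuclideanGeometry.angle at h
      have h3 := InnerProductGeometry.inner_eq_zero_iff_angle_eq_pi_div_two
        (p (i + 1 - 1) -ᵥ p (i + 1)) (p (i + 1 + 1) -ᵥ p (i + 1))
      rw [add_sub_cancel_right] at h3 h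
      simpa using h3.2 h
    set d := p (i + 1) - p i with hdd
    set e := p (i + 1 + 1) - p (i + 1) with hee
    have h4 : (conj d * e).re = 0 := by
      have : p i - p (i + 1) = -d := by rw [hdd]; ring
      rw [this, inner_neg_left, neg_eq_zero, Complex.inner] at hinner
      rw [mul_comm]
      exact hinner
    have h5 : conj d * e = ((conj d * e).im : ℂ) * I := by
      apply Complex.ext <;> simp [h4]
    have hnd : (‖d‖ : ℂ) ≠ 0 := ofReal_ne_zero.2 (norm_ne_zero_iff.2 hd)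
    have hne : (‖e‖ : ℂ) ≠ 0 := ofReal_ne_zero.2 (norm_ne_zero_iff.2 hd')
    have h6 : conj d * d = (‖d‖ : ℂ) ^ 2 := by
      rw [mul_comm, mul_conj, normSq_eq_norm_sq]; push_cast; ring
    have h7 : ((conj d * e).im : ℝ) ^ 2 = ‖d‖ ^ 2 * ‖e‖ ^ 2 := by
      have : normSq (conj d * e) = ((conj d * e).im) ^ 2 := by
        rw [normSq_apply, h4]; ring
      rw [← this, normSq_eq_norm_sq, norm_mul, Complex.norm_conj]; ring
    -- e = (im / ‖d‖^2) I d
    have h8 : e * (‖d‖ : ℂ) ^ 2 = ((conj d * e).im : ℂ) * I * d := by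
      rw [← h6, ← h5]; ring
    rw [exp_tau p (i + 1) hd', exp_tau p i hd, ← hdd, ← hee, div_pow, div_pow, ← neg_div,
      div_eq_div_iff (pow_ne_zero 2 hne) (pow_ne_zero 2 hnd)]
    have h9 : (e * (‖d‖ : ℂ) ^ 2) ^ 2 = -(((‖d‖ : ℂ) ^ 2 * (‖e‖ : ℂ) ^ 2) * d ^ 2) := by
      rw [h8]
      have h7' : (((conj d * e).im : ℝ) : ℂ) ^ 2 = (‖d‖ : ℂ) ^ 2 * (‖e‖ : ℂ) ^ 2 := by
        exact_mod_cast congrArg (fun x : ℝ => (x : ℂ)) h7
      have hI : I ^ 2 = -1 := I_sq
      calc (((conj d * e).im : ℂ) * I * d) ^ 2 = (((conj d * e).im : ℝ) : ℂ) ^ 2 * I ^ 2 * d ^ 2 := by ring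
        _ = _ := by rw [h7', hI]; ring
    have h10 : (‖d‖ : ℂ) ^ 2 ≠ 0 := pow_ne_zero 2 hnd
    refine mul_right_cancel₀ h10 ?_
    calc e ^ 2 * (‖d‖ : ℂ) ^ 2 * (‖d‖ : ℂ) ^ 2 = (e * (‖d‖ : ℂ) ^ 2) ^ 2 := by ring
      _ = _ := by rw [h9]; ring
  have hpow : ∀ j, exp ((((m + m : ℕ) * tau p j : ℝ) : ℂ) * I) = (exp ((tau p j : ℂ) * I) ^ 2) ^ m := by
    intro j
    rw [← pow_mul, ← exp_nat_mul]
    congr 1
    push_cast; ring
  refine ⟨(-1) ^ m, neg_one_pow_eq_or ℝ m, ?_⟩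
  rw [hpow, hpow, hsq, neg_pow]
  push_cast
  ring

/-- from the vanishing of the double integral to the equality of the norms -/
theorem norms_eq (hFA : S_FA) {p : Fin (n + 3) → ℂ} (hfin : volume (reg p) < ⊤)
    (hmeas : MeasurableSet (reg p)) {f : ℂ × ℝ → ℝ} (hfm : Measurable f)
    {C₀ : ℝ} (hfb : ∀ x, |f x| ≤ C₀) {C : ℝ} {F : ℝ → ℝ → ℝ} (hF : Chord p f C F)
    {k : ℕ} (hk : 1 ≤ k)
    (h1 : ∫ z in reg p, ∫ θ' in (0 : ℝ)..(2 * π), F θ' (off θ' z) * Dk F k z θ' = 0) :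
    ∫ z in reg p, ‖∫ θ in (0 : ℝ)..(2 * π), (f (z, θ) : ℂ) * exp (((k + 1 : ℕ) * θ : ℝ) * I)‖ ^ 2 =
    ∫ z in reg p, ‖∫ θ in (0 : ℝ)..(2 * π), (f (z, θ) : ℂ) * exp (((k - 1 : ℕ) * θ : ℝ) * I)‖ ^ 2 := by
  have hpi : (0:ℝ) ≤ 2 * π := by positivity
  have h2 : ∀ z ∈ reg p, ∫ θ' in (0 : ℝ)..(2 * π), F θ' (off θ' z) * Dk F k z θ' =
      (‖∫ θ in (0 : ℝ)..(2 * π), (f (z, θ) : ℂ) * exp (((k + 1 : ℕ) * θ : ℝ) * I)‖ ^ 2 -
       ‖∫ θ in (0 : ℝ)..(2 * π), (f (z, θ) : ℂ) * exp (((k - 1 : ℕ) * θ : ℝ) * I)‖ ^ 2) / 2 := by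
    intro z hz
    have h3 := hFA (fun θ => f (z, θ)) C₀ k (hfm.comp measurable_prodMk_left) (fun θ => hfb (z, θ)) hk
    rw [← h3]
    refine intervalIntegral.integral_congr fun θ' _ => ?_
    simp only [Dk, ← hF.val _ z hz]
  have hint : ∀ m : ℕ, IntegrableOn (fun z => ‖∫ θ in (0 : ℝ)..(2 * π), (f (z, θ) : ℂ) * exp ((m * θ : ℝ) * I)‖ ^ 2)
      (reg p) := by
    intro m
    have hm : Measurable (fun x : ℂ × ℝ => (f (x.1, x.2) : ℂ) * exp ((m * x.2 : ℝ) * I)) := by
      have e1 : Measurable (fun x : ℂ × ℝ => (f x : ℂ)) := measurable_ofReal.comp hfm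
      have e2 : Continuous (fun x : ℂ × ℝ => exp ((m * x.2 : ℝ) * I)) := by fun_prop
      exact e1.mul e2.measurable
    have hm2 : Measurable (fun z : ℂ => ∫ θ in (0 : ℝ)..(2 * π), (f (z, θ) : ℂ) * exp ((m * θ : ℝ) * I)) := by
      simp only [intervalIntegral.integral_of_le hpi]
      exact (hm.stronglyMeasurable.integral_prod_right (ν := volume.restrict (Ioc 0 (2 * π)))).measurable
    refine Measure.integrableOn_of_bounded (M := (C₀ * (2 * π)) ^ 2) hfin.ne
      ((hm2.norm.pow_const 2).aestronglyMeasurable) (ae_of_all _ fun z => ?_)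
    rw [norm_pow, norm_norm]
    refine pow_le_pow_left₀ (norm_nonneg _) ?_ 2
    have := intervalIntegral.norm_integral_le_of_norm_le_const (a := 0) (b := 2 * π) (C := C₀)
      (f := fun θ => (f (z, θ) : ℂ) * exp ((m * θ : ℝ) * I)) ?_
    · refine this.trans ?_
      rw [sub_zero, abs_of_nonneg hpi]
    · intro θ _
      rw [norm_mul, norm_exp_ofReal_mul_I, mul_one, norm_real, Real.norm_eq_abs]
      exact hfb _
  have h4 : ∫ z in reg p, (‖∫ θ in (0 : ℝ)..(2 * π), (f (z, θ) : ℂ) * exp (((k + 1 : ℕ) * θ : ℝ) * I)‖ ^ 2 -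
       ‖∫ θ in (0 : ℝ)..(2 * π), (f (z, θ) : ℂ) * exp (((k - 1 : ℕ) * θ : ℝ) * I)‖ ^ 2) / 2 = 0 := by
    exact (setIntegral_congr_fun hmeas h2).symm.trans h1
  rw [integral_div, integral_sub (hint (k + 1)) (hint (k - 1))] at h4
  linarith

/-- invariant functions are even in the velocity -/
theorem even_core (P : Parts) (hJ2 : S_J2) (hFO : S_FO) (hCY : S_CY) {p : Fin (n + 3) → ℂ}
    (hp : IsConvexPolygon p) {a b : Fin (n + 3)} (hr : ∀ i, i ≠ a → i ≠ b → ang p i = π / 2)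
    {f : ℂ × ℝ → ℝ} (hfm : Measurable f) (hfb : ∃ C : ℝ, ∀ x, |f x| ≤ C)
    (hI : IsInvariantFun p f) :
    ∀ᵐ z ∂(volume.restrict (reg p)), ∀ᵐ θ : ℝ, f (z, θ + π) = f (z, θ) := by
  obtain ⟨C, F, hF⟩ := P.ch P.basic P.hull n p hp f hfm hfb hI
  obtain ⟨C₀, hC₀⟩ := hfb
  have hopen : IsOpen (reg p) := (P.basic n p hp).2.1
  have hfin := reg_bounded P.hull hp
  refine hFO (reg p) hopen.measurableSet hfin (fun z θ => f (z, θ)) C₀ hfm
    (fun z θ => hC₀ (z, θ)) hI.periodic ?_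
  intro k hk hke
  have hJ := fun i => hJ2 P.gf P.sy n p i (vert_ne P.basic hp i) F C hF.meas hF.bdd hF.per
    (hF.refl i) k
  have hzero : ∑ i, Jn p F k i * (exp (-((k * tau p i : ℝ) : ℂ) * I) * Psi F k (p i)).re = 0 := by
    refine hCY n (fun i => exp (((k * tau p i : ℝ) : ℂ) * I))
      (fun i => (exp (-((k * tau p i : ℝ) : ℂ) * I) * Psi F k (p i)).re) (Jn p F k) a b
      (fun i => norm_exp_ofReal_mul_I _) ?_ ?_ (closingJ P.div P.sy hp hF k)
    · intro i ε hε hw
      have hconj : ∀ i, exp (-((k * tau p i : ℝ) : ℂ) * I) =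
          conj (exp (((k * tau p i : ℝ) : ℂ) * I)) := by
        intro i
        rw [← exp_conj, map_mul, conj_ofReal, conj_I]; congr 1; ring
      change exp (((k * tau p (i + 1) : ℝ) : ℂ) * I) = ε * exp (((k * tau p i : ℝ) : ℂ) * I) at hw
      change (exp (-((k * tau p (i + 1) : ℝ) : ℂ) * I) * Psi F k (p (i + 1))).re =
        ε * (exp (-((k * tau p i : ℝ) : ℂ) * I) * Psi F k (p i)).re
      rw [← (hJ i).2, hconj, hconj, hw, map_mul, conj_ofReal, mul_assoc, re_ofReal_mul]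
    · intro i h1 h2
      exact right_angle P.basic hp i (hr (i + 1) h1 h2) hke
  have h1 : ∫ z in reg p, ∫ θ' in (0 : ℝ)..(2 * π), F θ' (off θ' z) * Dk F k z θ' = 0 :=
    (identGen P.i1 P.div P.gf hp hfin hF k).trans
      ((Finset.sum_congr rfl fun i _ => (hJ i).1).trans hzero)
  exact norms_eq P.fa hfin hopen.measurableSet hfm hC₀ hF hk h1


theorem even_bdd (P : Parts) (hJ2 : S_J2) (hFO : S_FO) (hCY : S_CY) {p : Fin (n + 3) → ℂ}
    (hp : IsConvexPolygon p) {a b : Fin (n + 3)} (hr : ∀ i, i ≠ a → i ≠ b → ang p i = π / 2)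
    {f : ℂ × ℝ → ℝ} (hfm : Measurable f) (hfb : ∃ C : ℝ, ∀ x, |f x| ≤ C)
    (hI : IsInvariantFun p f) :
    ∀ᵐ x : ℂ × ℝ, x.1 ∈ region p → f (x.1, x.2 + π) = f x := by
  have h := even_core P hJ2 hFO hCY hp hr hfm hfb hI
  have hreg : region p = reg p := (P.hull n p hp).2
  have hopen : IsOpen (reg p) := (P.basic n p hp).2.1
  have hset : MeasurableSet {x : ℂ × ℝ | x.1 ∈ region p → f (x.1, x.2 + π) = f x} := by
    have : {x : ℂ × ℝ | x.1 ∈ region p → f (x.1, x.2 + π) = f x} =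
        (Prod.fst ⁻¹' (region p))ᶜ ∪ {x | f (x.1, x.2 + π) = f x} := by
      ext x
      simp only [mem_ofPred_eq, mem_union, mem_compl_iff, mem_preimage]
      tauto
    rw [this]
    have hsh : Measurable (fun x : ℂ × ℝ => (x.1, x.2 + π)) := by fun_prop
    refine (MeasurableSet.compl (measurable_fst ?_)).union
      (measurableSet_eq_fun (hfm.comp hsh) hfm)
    rw [hreg]
    exact hopen.measurableSet
  rw [Measure.volume_eq_prod, Measure.ae_prod_iff_ae_ae hset]
  rw [ae_restrict_iff' hopen.measurableSet] at h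
  filter_upwards [h] with z hz
  by_cases hzr : z ∈ reg p
  · filter_upwards [hz hzr] with θ hθ _ using hθ
  · refine ae_of_all _ fun θ hθ => ?_
    rw [hreg] at hθ
    exact absurd hθ hzr

/-- the final theorem of part 2 -/
theorem even_fun (P : Parts) (hJ2 : S_J2) (hFO : S_FO) (hCY : S_CY) {p : Fin (n + 3) → ℂ}
    (hp : IsConvexPolygon p) {a b : Fin (n + 3)} (hr : ∀ i, i ≠ a → i ≠ b → ang p i = π / 2)
    {f : ℂ × ℝ → ℝ} (hfm : Measurable f) (hI : IsInvariantFun p f) :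
    ∀ᵐ x : ℂ × ℝ, x.1 ∈ region p → f (x.1, x.2 + π) = f x := by
  have h := even_bdd P hJ2 hFO hCY hp hr (f := fun x => Real.arctan (f x))
    (Real.measurable_arctan.comp hfm)
    ⟨π / 2, fun x => (abs_lt.2 ⟨Real.neg_pi_div_two_lt_arctan _, Real.arctan_lt_pi_div_two _⟩).le⟩
    { periodic := fun z θ => by rw [hI.periodic]
      free := fun z θ s h1 h2 => by rw [hI.free z θ s h1 h2]
      reflect := fun i y hy θ s r hs hr h1 h2 => by rw [hI.reflect i y hy θ s r hs hr h1 h2] }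
  filter_upwards [h] with x hx hxr
  exact Real.arctan_injective (hx hxr)

end Pool.Agent.N440.LB
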