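import Pool.Agent.N440.LB.All
import Pool.Agent.N440.LB.Even
import Pool.Agent.N441.LB.J2
import Pool.Agent.N558.LB.CY
import Pool.Agent.N222.LB.FO

set_option autoImplicit false

/-!
All parts of the second part together.
-/

namespace Pool.Agent.N440.LB

open Pool.Agent.W780.PG Pool.Agent.W780.BB Pool.Agent.TH103.BL MeasureTheory

open scoped Real

theorem even_all {n : ℕ} {p : Fin (n + 3) → ℂ} (hp : IsConvexPolygon p) {a b : Fin (n + 3)}
    (hr : ∀ i, i ≠ a → i ≠ b → ang p i = π / 2) {f : ℂ × ℝ → ℝ} (hfm : Measurable f)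
    (hI : IsInvariantFun p f) :
    ∀ᵐ x : ℂ × ℝ, x.1 ∈ region p → f (x.1, x.2 + π) = f x :=
  even_fun parts Pool.Agent.N441.LB.J2.t_J2 Pool.Agent.N222.LB.FO.t_FO
    Pool.Agent.N558.LB.t_CY hp hr hfm hI

end Pool.Agent.N440.LB
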