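import Pool.Agent.N440.LB.Side
import Pool.Agent.N664.LB.CH

set_option autoImplicit false

/-!
The final theorem for functions and sets, from the parts.
-/

namespace Pool.Agent.N440.LB

open Complex Set MeasureTheory Filter Topology Pool.Agent.W780.PG Pool.Agent.W780.BB
  Pool.Agent.TH103.BL

open scoped Real ComplexConjugate

variable {n : ℕ}

/-- For almost every direction angle `θ` pointing out of the polygon at the side `i`, the mean over
the side `i` of the values of `f` on the chords with the direction `θ` which end on this side is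
`c`: `g t` is the value of `f` on the chord which ends at the point `p i + t (p (i + 1) - p i)`. -/
def SideMean (p : Fin (n + 3) → ℂ) (f : ℂ × ℝ → ℝ) (i : Fin (n + 3)) (c : ℝ) : Prop :=
  ∀ᵐ θ : ℝ, Real.sin (θ - tau p i) < 0 → ∀ g : ℝ → ℝ,
    (∀ t ∈ Ioo (0 : ℝ) 1, ∀ s : ℝ, 0 < s → pt p i t - s • dir θ ∈ region p →
      f (pt p i t - s • dir θ, θ) = g t) → ∫ t in (0 : ℝ)..1, g t = c

theorem off_sub_dir (θ s : ℝ) (z : ℂ) : off θ (z - s • dir θ) = off θ z := by
  unfold off dir
  have h2 : conj (exp ((θ : ℂ) * I)) * exp ((θ : ℂ) * I) = 1 := by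
    rw [← exp_conj, ← exp_add, map_mul, conj_ofReal, conj_I]
    rw [show (θ : ℂ) * -I + (θ : ℂ) * I = 0 by ring, exp_zero]
  rw [real_smul, mul_sub, sub_im, show conj (exp ((θ : ℂ) * I)) * ((s : ℂ) * exp ((θ : ℂ) * I)) =
    s * (conj (exp ((θ : ℂ) * I)) * exp ((θ : ℂ) * I)) by ring, h2]
  simp

/-- the side mean is the mean of the chord function -/
theorem mn_of_sideMean (hreg : ∀ p : Fin (n + 3) → ℂ, IsConvexPolygon p → region p = reg p)
    {p : Fin (n + 3) → ℂ} (hp : IsConvexPolygon p)
    {f : ℂ × ℝ → ℝ} {C : ℝ} {F : ℝ → ℝ → ℝ} (hF : Chord p f C F) {i : Fin (n + 3)}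
    (h : SideMean p f i 0) : ∀ᵐ θ : ℝ, Mn p F i θ = 0 := by
  have h1 : ∀ᵐ θ : ℝ, Real.sin (θ - tau p i) < 0 → Mn p F i θ = 0 := by
    filter_upwards [h] with θ hθ hs
    refine hθ hs (fun t => F θ (off θ (pt p i t))) fun t _ s _ hz => ?_
    rw [hreg p hp] at hz
    rw [hF.val _ _ hz, off_sub_dir]
  filter_upwards [h1, ae_refl (2 * tau p i) h1, ae_sin_ne (tau p i)] with θ h2 h3 h4
  rcases lt_or_gt_of_ne h4 with h5 | h5
  · exact h2 h5
  · rw [← mn_refl (hF.refl i) h4]
    refine h3 ?_
    rw [show 2 * tau p i - θ - tau p i = -(θ - tau p i) by ring, Real.sin_neg]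
    linarith

structure Parts : Prop where
  basic : S_Basic
  hull : S_Hull
  ch : S_CH
  div : S_DIV
  gf : S_GF
  sy : S_SY
  i1 : S_I1
  i2 : S_I2
  fa : S_FA
  fb : S_FB
  ro : S_RO

theorem reg_bounded (hH : S_Hull) {p : Fin (n + 3) → ℂ} (hp : IsConvexPolygon p) :
    volume (reg p) < ⊤ := by
  rw [← (hH n p hp).2]
  unfold region
  refine lt_of_le_of_lt (measure_mono interior_subset) ?_
  have : Bornology.IsBounded (convexHull ℝ (range p)) :=
    isBounded_convexHull.2 (finite_range p).isBounded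
  exact this.measure_lt_top

theorem vert_ne (hB : S_Basic) {p : Fin (n + 3) → ℂ} (hp : IsConvexPolygon p) (i : Fin (n + 3)) :
    p i ≠ p (i + 1) := by
  intro h
  have h1 := (hB n p hp).1 h
  have h2 : (1 : Fin (n + 3)) = 0 := by
    have := congrArg (fun x => x - i) h1
    simpa using this.symm
  exact absurd h2 (by
    rw [Fin.ext_iff]
    simp)

/-- functions, with a given chord function -/
theorem funs' (P : Parts) {p : Fin (n + 3) → ℂ} (hp : IsConvexPolygon p)
    {E : Set (Fin (n + 3))}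
    (hE : E = ∅ ∨ ∃ i j, E = {i, j} ∧ Irrational ((tau p i - tau p j) / π))
    {f : ℂ × ℝ → ℝ} (hfm : Measurable f) (hfb : ∃ C : ℝ, ∀ x, |f x| ≤ C)
    (hper : ∀ z θ, f (z, θ + 2 * π) = f (z, θ)) {C : ℝ} {F : ℝ → ℝ → ℝ} (hF : Chord p f C F)
    (hmn : ∀ l, l ∉ E → ∀ᵐ θ : ℝ, Mn p F l θ = 0) :
    ∀ᵐ x : ℂ × ℝ, x.1 ∈ region p → f x = 0 := by
  obtain ⟨C₀, hC₀⟩ := hfb
  have hreg : ∀ p : Fin (n + 3) → ℂ, IsConvexPolygon p → region p = reg p :=
    fun p hp => (P.hull n p hp).2
  have hall : ∀ l, ∀ᵐ θ : ℝ, Mn p F l θ = 0 := by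
    rcases hE with rfl | ⟨i, j, rfl, hirr⟩
    · exact fun l => hmn l (by simp)
    · exact two_sides P.div P.ro hp (vert_ne P.basic hp) hF hirr
        fun l h1 h2 => hmn l (by simp [h1, h2])
  have hopen : IsOpen (reg p) := (P.basic n p hp).2.1
  have h := core P.i1 P.i2 P.div P.gf P.sy P.fa P.fb hp (reg_bounded P.hull hp)
    hopen.measurableSet (vert_ne P.basic hp) hfm hper hC₀ hF hall
  have hset : MeasurableSet {x : ℂ × ℝ | x.1 ∈ region p → f x = 0} := by
    have : {x : ℂ × ℝ | x.1 ∈ region p → f x = 0} =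
        (Prod.fst ⁻¹' (region p))ᶜ ∪ {x | f x = 0} := by
      ext x
      simp only [mem_ofPred_eq, mem_union, mem_compl_iff, mem_preimage]
      tauto
    rw [this]
    refine (MeasurableSet.compl (measurable_fst ?_)).union (measurableSet_eq_fun hfm measurable_const)
    rw [hreg p hp]
    exact hopen.measurableSet
  rw [Measure.volume_eq_prod, Measure.ae_prod_iff_ae_ae hset]
  rw [ae_restrict_iff' hopen.measurableSet] at h
  filter_upwards [h] with z hz
  by_cases hzr : z ∈ reg p
  · filter_upwards [hz hzr] with θ hθ _ using hθ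
  · refine ae_of_all _ fun θ hθ => ?_
    rw [hreg p hp] at hθ
    exact absurd hθ hzr

/-- functions -/
theorem funs (P : Parts) {p : Fin (n + 3) → ℂ} (hp : IsConvexPolygon p)
    {E : Set (Fin (n + 3))}
    (hE : E = ∅ ∨ ∃ i j, E = {i, j} ∧ Irrational ((tau p i - tau p j) / π))
    {f : ℂ × ℝ → ℝ} (hfm : Measurable f) (hfb : ∃ C : ℝ, ∀ x, |f x| ≤ C)
    (hI : IsInvariantFun p f) (hM : ∀ l, l ∉ E → SideMean p f l 0) :
    ∀ᵐ x : ℂ × ℝ, x.1 ∈ region p → f x = 0 := by
  obtain ⟨C, F, hF⟩ := P.ch P.basic P.hull n p hp f hfm hfb hI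
  exact funs' P hp hE hfm hfb hI.periodic hF
    fun l hl => mn_of_sideMean (fun p hp => (P.hull n p hp).2) hp hF (hM l hl)

/-- the part of the side `i` (in the parameter `t`) on which the states with direction angle `θ`
arriving there belong to `A` -/
def arr (p : Fin (n + 3) → ℂ) (A : Set (ℂ × ℝ)) (i : Fin (n + 3)) (θ : ℝ) : Set ℝ :=
  {t | t ∈ Ioo (0 : ℝ) 1 ∧ ∃ s : ℝ, 0 < s ∧ pt p i t - s • dir θ ∈ region p ∧
    (pt p i t - s • dir θ, θ) ∈ A}

theorem pt_side (p : Fin (n + 3) → ℂ) (i : Fin (n + 3)) {t : ℝ} (ht : t ∈ Ioo (0 : ℝ) 1) :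
    pt p i t ∈ side p i := by
  unfold side pt
  rw [openSegment_eq_image']
  exact ⟨t, ht, rfl⟩

theorem exists_back (hB : S_Basic) {p : Fin (n + 3) → ℂ} (hp : IsConvexPolygon p)
    (i : Fin (n + 3)) {t : ℝ} (ht : t ∈ Ioo (0 : ℝ) 1) {θ : ℝ} (hθ : Real.sin (θ - tau p i) < 0) :
    ∃ s : ℝ, 0 < s ∧ pt p i t - s • dir θ ∈ reg p := by
  obtain ⟨-, -, -, -, -, -, -, -, -, -, -, -, hside, -⟩ := hB n p hp
  obtain ⟨-, h0, hk⟩ := hside i _ (pt_side p i ht)
  obtain ⟨s, hs, h⟩ := Pool.Agent.N664.LB.CH.small p i (vert_ne hB hp i).symm _ h0 hk (θ + π)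
    (by rw [show θ + π - tau p i = (θ - tau p i) + π by ring, Real.sin_add_pi]; linarith)
  refine ⟨s, hs, ?_⟩
  rwa [Pool.Agent.N664.LB.CH.dir_neg, smul_neg, ← sub_eq_add_neg] at h

/-- sets -/
theorem sets (P : Parts) {p : Fin (n + 3) → ℂ} (hp : IsConvexPolygon p)
    {E : Set (Fin (n + 3))}
    (hE : E = ∅ ∨ ∃ i j, E = {i, j} ∧ Irrational ((tau p i - tau p j) / π))
    {A : Set (ℂ × ℝ)} (hA : MeasurableSet A) (hI : IsInvariant p A) {c : ℝ}
    (hM : ∀ l, l ∉ E → ∀ᵐ θ : ℝ, Real.sin (θ - tau p l) < 0 →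
      volume.real (arr p A l θ) = c) : IsTrivial p A := by
  classical
  set f : ℂ × ℝ → ℝ := fun x => A.indicator (fun _ => (1:ℝ)) x - c with hf
  have hfm : Measurable f := (measurable_const.indicator hA).sub measurable_const
  have hfb : ∃ C : ℝ, ∀ x, |f x| ≤ C := by
    refine ⟨1 + |c|, fun x => ?_⟩
    simp only [hf]
    refine (abs_sub _ _).trans ?_
    gcongr
    by_cases h : x ∈ A <;> simp [h]
  have hiff : ∀ x y : ℂ × ℝ, (x ∈ A ↔ y ∈ A) → f x = f y := by
    intro x y h
    simp only [hf]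
    by_cases hx : x ∈ A
    · simp [hx, h.1 hx]
    · rw [indicator_of_notMem hx, indicator_of_notMem (fun hy => hx (h.2 hy))]
  have hI' : IsInvariantFun p f :=
    { periodic := fun z θ => hiff _ _ (hI.periodic z θ)
      free := fun z θ s h1 h2 => hiff _ _ (hI.free z θ s h1 h2)
      reflect := fun i y hy θ s r hs hr h1 h2 => hiff _ _ (hI.reflect i y hy θ s r hs hr h1 h2) }
  obtain ⟨C, F, hF⟩ := P.ch P.basic P.hull n p hp f hfm hfb hI'
  have hreg : region p = reg p := (P.hull n p hp).2
  have hmn : ∀ l, l ∉ E → ∀ᵐ θ : ℝ, Mn p F l θ = 0 := by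
    intro l hl
    have h1 : ∀ᵐ θ : ℝ, Real.sin (θ - tau p l) < 0 → Mn p F l θ = 0 := by
      filter_upwards [hM l hl] with θ hθ hs
      have hθ := hθ hs
      -- on the side the chord function is the indicator minus c
      have hval : ∀ t ∈ Ioo (0:ℝ) 1, F θ (off θ (pt p l t)) =
          (arr p A l θ).indicator (fun _ => (1:ℝ)) t - c := by
        intro t ht
        obtain ⟨s, hs0, hsr⟩ := exists_back P.basic hp l ht hs
        have e1 : F θ (off θ (pt p l t)) = f (pt p l t - s • dir θ, θ) := by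
          rw [hF.val _ _ hsr, off_sub_dir]
        rw [e1]
        simp only [hf]
        congr 1
        by_cases hta : t ∈ arr p A l θ
        · rw [indicator_of_mem hta]
          obtain ⟨-, s', hs', hr', hA'⟩ := hta
          have : f (pt p l t - s' • dir θ, θ) = f (pt p l t - s • dir θ, θ) := by
            rw [hF.val _ _ hsr, hF.val _ _ (hreg ▸ hr'), off_sub_dir, off_sub_dir]
          simp only [hf] at this
          rw [indicator_of_mem hA'] at this
          linarith
        · rw [indicator_of_notMem hta]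
          refine indicator_of_notMem (fun h => hta ⟨ht, s, hs0, ?_, h⟩) _
          rw [hreg]; exact hsr
      have hmeasT : MeasurableSet (arr p A l θ) := by
        have hpt : Continuous (pt p l) := by unfold pt; fun_prop
        have hm : Measurable (fun t => F θ (off θ (pt p l t))) :=
          chord_meas' hF.meas hpt.measurable measurable_const
        have : arr p A l θ = Ioo (0:ℝ) 1 ∩ (fun t => F θ (off θ (pt p l t))) ⁻¹' {1 - c} := by
          ext t
          constructor
          · intro ht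
            refine ⟨ht.1, ?_⟩
            rw [mem_preimage, hval t ht.1, indicator_of_mem ht]
            rfl
          · rintro ⟨h1, h2⟩
            by_contra hne
            rw [mem_preimage, hval t h1, indicator_of_notMem hne, mem_singleton_iff] at h2
            linarith
        rw [this]
        exact measurableSet_Ioo.inter (hm (measurableSet_singleton _))
      unfold Mn
      rw [intervalIntegral.integral_of_le zero_le_one, integral_Ioc_eq_integral_Ioo,
        setIntegral_congr_fun measurableSet_Ioo hval, integral_sub, integral_const,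
        integral_indicator_const _ hmeasT]
      · have hsub : arr p A l θ ∩ Ioo 0 1 = arr p A l θ := inter_eq_left.2 fun t ht => ht.1
        rw [Measure.real, Measure.restrict_apply hmeasT, hsub]
        simp only [Measure.real] at hθ
        simp [hθ]
      · exact (integrable_const (1:ℝ)).indicator hmeasT
      · exact integrable_const _
    filter_upwards [h1, ae_refl (2 * tau p l) h1, ae_sin_ne (tau p l)] with θ h2 h3 h4
    rcases lt_or_gt_of_ne h4 with h5 | h5
    · exact h2 h5
    · rw [← mn_refl (hF.refl l) h4]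
      refine h3 ?_
      rw [show 2 * tau p l - θ - tau p l = -(θ - tau p l) by ring, Real.sin_neg]
      linarith
  have h := funs' P hp hE hfm hfb hI'.periodic hF hmn
  by_cases hc : c = 1
  · right
    refine measure_mono_null (fun x hx => ?_) h
    intro h2
    have h3 := h2 (hx.1.1)
    simp only [hf] at h3
    rw [indicator_of_notMem hx.2, hc] at h3
    norm_num at h3
  · left
    refine measure_mono_null (fun x hx => ?_) h
    intro h2
    have h3 := h2 (hx.1.1)
    simp only [hf] at h3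
    rw [indicator_of_mem hx.2] at h3
    exact hc (by linarith)

end Pool.Agent.N440.LB
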