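import Pool.Agent.N440.LB.Core

set_option autoImplicit false

/-!
Side means: symmetry, the closing relation, and the omission of two sides.
-/

namespace Pool.Agent.N440.LB

open Complex Set MeasureTheory Filter Topology Pool.Agent.W780.PG Pool.Agent.W780.BB
  Pool.Agent.TH103.BL

open scoped Real ComplexConjugate

variable {n : ℕ}

theorem off_side (p : Fin (n + 3) → ℂ) (i : Fin (n + 3)) (θ : ℝ) :
    off θ (p (i + 1) - p i) = ‖p (i + 1) - p i‖ * Real.sin (tau p i - θ) := by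
  unfold off tau dir
  set d := p (i + 1) - p i with hd
  have h1 : d = ‖d‖ * exp (arg d * I) := (norm_mul_exp_arg_mul_I d).symm
  have h2 : conj (exp ((θ : ℂ) * I)) = exp (-(θ : ℂ) * I) := by
    rw [← exp_conj, map_mul, conj_ofReal, conj_I]; congr 1; ring
  have h3 : conj (exp ((θ : ℂ) * I)) * d = ‖d‖ * exp (((arg d - θ : ℝ) : ℂ) * I) := by
    rw [h2]
    conv_lhs => rw [h1]
    rw [show exp (-(θ : ℂ) * I) * (‖d‖ * exp (arg d * I)) = ‖d‖ * (exp (-(θ : ℂ) * I) * exp (arg d * I)) by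
      ring, ← exp_add]
    congr 2
    push_cast; ring
  rw [h3, im_ofReal_mul, exp_ofReal_mul_I_im]

theorem ae_sin_ne (c : ℝ) : ∀ᵐ θ : ℝ, Real.sin (θ - c) ≠ 0 := by
  have : {θ : ℝ | ¬ Real.sin (θ - c) ≠ 0} ⊆ range (fun m : ℤ => c + m * π) := by
    intro θ hθ
    have h : Real.sin (θ - c) = 0 := not_not.1 hθ
    obtain ⟨m, hm⟩ := Real.sin_eq_zero_iff.1 h
    exact ⟨m, by linarith⟩
  exact measure_mono_null this ((countable_range _).measure_zero _)

/-- the reflection preserves null sets -/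
theorem ae_refl {P : ℝ → Prop} (c : ℝ) (h : ∀ᵐ θ : ℝ, P θ) : ∀ᵐ θ : ℝ, P (c - θ) := by
  have h1 : Measure.QuasiMeasurePreserving (fun θ : ℝ => c - θ) volume volume :=
    quasiMeasurePreserving_sub_left_of_right_invariant volume c
  exact h1.ae h

theorem mn_refl {p : Fin (n + 3) → ℂ} {F : ℝ → ℝ → ℝ} {i : Fin (n + 3)}
    (h : ∀ t ∈ Ioo (0 : ℝ) 1, ∀ θ, Real.sin (θ - tau p i) ≠ 0 →
      F (2 * tau p i - θ) (off (2 * tau p i - θ) (pt p i t)) = F θ (off θ (pt p i t)))
    {θ : ℝ} (hθ : Real.sin (θ - tau p i) ≠ 0) : Mn p F i (2 * tau p i - θ) = Mn p F i θ := by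
  unfold Mn
  rw [intervalIntegral.integral_of_le zero_le_one, intervalIntegral.integral_of_le zero_le_one,
    integral_Ioc_eq_integral_Ioo, integral_Ioc_eq_integral_Ioo]
  exact setIntegral_congr_fun measurableSet_Ioo fun t ht => h t ht θ hθ

theorem mn_meas {F : ℝ → ℝ → ℝ} (hF : Measurable (Function.uncurry F)) (p : Fin (n + 3) → ℂ)
    (i : Fin (n + 3)) : Measurable (Mn p F i) := by
  have hpt : Continuous (pt p i) := by unfold pt; fun_prop
  have e1 : Measurable (fun x : ℝ × ℝ => F x.1 (off x.1 (pt p i x.2))) :=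
    chord_meas' hF (hpt.measurable.comp measurable_snd) measurable_fst
  unfold Mn
  simp only [intervalIntegral.integral_of_le (zero_le_one : (0:ℝ) ≤ 1)]
  exact (e1.stronglyMeasurable.integral_prod_right (ν := volume.restrict (Ioc 0 1))).measurable

theorem mn_bdd {F : ℝ → ℝ → ℝ} {C : ℝ} (hb : ∀ θ u, |F θ u| ≤ C) (p : Fin (n + 3) → ℂ)
    (i : Fin (n + 3)) (θ : ℝ) : |Mn p F i θ| ≤ C := by
  have := intervalIntegral.norm_integral_le_of_norm_le_const (a := 0) (b := 1) (C := C)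
    (f := fun t => F θ (off θ (pt p i t))) (fun t _ => hb _ _)
  simpa [Mn] using this

theorem mn_per {F : ℝ → ℝ → ℝ} (hper : ∀ θ u, F (θ + 2 * π) u = F θ u) (p : Fin (n + 3) → ℂ)
    (i : Fin (n + 3)) (θ : ℝ) : Mn p F i (θ + 2 * π) = Mn p F i θ := by
  unfold Mn
  simp only [hper, off_per]

/-- the closing relation -/
theorem closing (hDIV : S_DIV) {p : Fin (n + 3) → ℂ} (hp : IsConvexPolygon p)
    {F : ℝ → ℝ → ℝ} {C : ℝ} (hm : Measurable (Function.uncurry F)) (hb : ∀ θ u, |F θ u| ≤ C)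
    (θ : ℝ) : ∑ i, off θ (p (i + 1) - p i) * Mn p F i θ = 0 := by
  have hC : 0 ≤ C := (abs_nonneg _).trans (hb 0 0)
  have h := hDIV n p hp θ (fun z => F θ (off θ z)) (fun _ => 0)
    (chord_meas' hm measurable_id measurable_const) measurable_const
    (fun R => ⟨C, fun z _ => ⟨hb _ _, by simpa using hC⟩⟩) (fun z s => ?_)
  · simp only [integral_zero] at h
    exact h.symm
  · have : off θ (z + s • dir θ) = off θ z := by
      unfold off dir
      have h2 : conj (exp ((θ : ℂ) * I)) * exp ((θ : ℂ) * I) = 1 := by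
        rw [← exp_conj, ← exp_add, map_mul, conj_ofReal, conj_I]
        rw [show (θ : ℂ) * -I + (θ : ℂ) * I = 0 by ring, exp_zero]
      rw [real_smul, mul_add, add_im, show conj (exp ((θ : ℂ) * I)) * ((s : ℂ) * exp ((θ : ℂ) * I)) =
        s * (conj (exp ((θ : ℂ) * I)) * exp ((θ : ℂ) * I)) by ring, h2]
      simp
    simp only [this, sub_self, intervalIntegral.integral_zero]

/-- two sides may be omitted if their angle is irrational -/
theorem two_sides (hDIV : S_DIV) (hRO : S_RO) {p : Fin (n + 3) → ℂ} (hp : IsConvexPolygon p)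
    (hne : ∀ i, p i ≠ p (i + 1)) {f : ℂ × ℝ → ℝ} {C : ℝ} {F : ℝ → ℝ → ℝ} (hF : Chord p f C F)
    {i j : Fin (n + 3)} (hij : Irrational ((tau p i - tau p j) / π))
    (hM : ∀ l, l ≠ i → l ≠ j → ∀ᵐ θ : ℝ, Mn p F l θ = 0) :
    ∀ l, ∀ᵐ θ : ℝ, Mn p F l θ = 0 := by
  have hne' : i ≠ j := by
    rintro rfl
    simp at hij
  set m : Fin (n + 3) → ℝ → ℝ := fun l θ => off θ (p (l + 1) - p l) * Mn p F l θ with hmdef
  have hodd : ∀ l, ∀ᵐ θ : ℝ, m l (2 * tau p l - θ) = - m l θ := by
    intro l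
    filter_upwards [ae_sin_ne (tau p l)] with θ hθ
    simp only [hmdef, mn_refl (hF.refl l) hθ, off_side]
    rw [show tau p l - (2 * tau p l - θ) = -(tau p l - θ) by ring, Real.sin_neg]
    ring
  have hsum : ∀ᵐ θ : ℝ, m i θ = - m j θ := by
    have hall : ∀ᵐ θ : ℝ, ∀ l, l ≠ i → l ≠ j → Mn p F l θ = 0 := by
      rw [ae_all_iff]; intro l
      by_cases h1 : l = i
      · exact ae_of_all _ fun θ h => absurd h1 h
      by_cases h2 : l = j
      · exact ae_of_all _ fun θ _ h => absurd h2 h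
      filter_upwards [hM l h1 h2] with θ hθ _ _ using hθ
    filter_upwards [hall] with θ hθ
    have hc := closing hDIV hp hF.meas hF.bdd θ
    have : ∑ l, off θ (p (l + 1) - p l) * Mn p F l θ = m i θ + m j θ := by
      rw [Finset.sum_eq_add i j hne']
      · intro l _ hl
        rw [hθ l hl.1 hl.2, mul_zero]
      · intro h; exact absurd (Finset.mem_univ _) h
      · intro h; exact absurd (Finset.mem_univ _) h
    linarith
  have hodd' : ∀ᵐ θ : ℝ, m i (2 * tau p j - θ) = - m i θ := by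
    filter_upwards [hsum, ae_refl (2 * tau p j) hsum, hodd j] with θ h1 h2 h3
    rw [h2, h3, h1]
  have hmm : Measurable (m i) := by
    have h0 : Continuous (fun θ : ℝ => off θ (p (i + 1) - p i)) :=
      off_cont.comp (continuous_id.prodMk continuous_const)
    exact h0.measurable.mul (mn_meas hF.meas p i)
  have hC : 0 ≤ C := (abs_nonneg _).trans (hF.bdd 0 0)
  have hmz : ∀ᵐ θ : ℝ, m i θ = 0 := by
    refine hRO _ _ hij (m i) (‖p (i + 1) - p i‖ * C) hmm (fun θ => ?_) (fun θ => ?_) (hodd i) hodd'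
    · simp only [hmdef, abs_mul]
      refine mul_le_mul ?_ (mn_bdd hF.bdd p i θ) (abs_nonneg _) (norm_nonneg _)
      rw [off_side, abs_mul, abs_of_nonneg (norm_nonneg _)]
      exact mul_le_of_le_one_right (norm_nonneg _) (Real.abs_sin_le_one _)
    · simp only [hmdef, mn_per hF.per, off_per]
  have key : ∀ l, (∀ᵐ θ : ℝ, m l θ = 0) → ∀ᵐ θ : ℝ, Mn p F l θ = 0 := by
    intro l hl
    filter_upwards [hl, ae_sin_ne (tau p l)] with θ h1 h2
    have h3 : off θ (p (l + 1) - p l) ≠ 0 := by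
      rw [off_side]
      refine mul_ne_zero (norm_ne_zero_iff.2 (sub_ne_zero.2 (hne l).symm)) ?_
      rw [show tau p l - θ = -(θ - tau p l) by ring, Real.sin_neg]
      exact neg_ne_zero.2 h2
    exact (mul_eq_zero.1 h1).resolve_left h3
  intro l
  by_cases h1 : l = i
  · rw [h1]; exact key i hmz
  by_cases h2 : l = j
  · rw [h2]
    refine key j ?_
    filter_upwards [hmz, hsum] with θ h3 h4
    linarith
  exact hM l h1 h2

end Pool.Agent.N440.LB
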